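import Pool.Agent.Y515.CntD.Claim
import Mathlib.Algebra.CharP.Frobenius

/-!
Semilinear version: the refined count of the vectors with a prescribed short combination.
-/

set_option autoImplicit false
set_option linter.unusedSectionVars false

open Polynomial Finset
open Pool.Agent.Y709 Pool.Agent.Y515.Cnt Pool.Agent.Y515.CntG
open Pool.Agent.Y515.CntD (swap_sum mod_mem_PF top_coeff exists_cG dvd_pow_of exists_gcd)

namespace Pool.Agent.Y515.CntE

variable {k : Type} [Field k] [Fintype k]

theorem map_map_id {σ τ : k →+* k} (h : ∀ x, τ (σ x) = x) (p : k[X]) :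
    (p.map σ).map τ = p := by
  ext n
  rw [coeff_map, coeff_map, h]

/-- twisted polynomials of irreducible polynomials -/
theorem irred_map {σ τ : k →+* k} (hστ : ∀ x, σ (τ x) = x) (hτσ : ∀ x, τ (σ x) = x) {P : k[X]}
    (hP : Irreducible P) : Irreducible (P.map σ) := by
  have hu : ∀ a : k[X], IsUnit (a.map τ) → IsUnit a := by
    intro a ha
    have h1 := ha.map (Polynomial.mapRingHom σ)
    rw [Polynomial.coe_mapRingHom, map_map_id hστ] at h1
    exact h1
  refine ⟨?_, ?_⟩
  · intro h
    apply hP.not_isUnit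
    have h1 := h.map (Polynomial.mapRingHom τ)
    rw [Polynomial.coe_mapRingHom, map_map_id hτσ] at h1
    exact h1
  · intro a b hab
    have h1 : P = a.map τ * b.map τ := by
      rw [← Polynomial.map_mul, ← hab, map_map_id hτσ]
    rcases hP.isUnit_or_isUnit h1 with h2 | h2
    · exact Or.inl (hu a h2)
    · exact Or.inr (hu b h2)

/-- the refined count -/
theorem card_refined {r q Q f V z κ γ : ℕ} (hQk : Fintype.card k = Q) (hq0 : 0 < q)
    {σ τ : k →+* k} (hστ : ∀ x, σ (τ x) = x) (hτσ : ∀ x, τ (σ x) = x)
    (hexp : ∀ g : k[X], expand k q (g.map σ) = g ^ q)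
    (Φ Ψ : Matrix (Fin r) (Fin r) k[X]) (δ : k[X])
    (hf : ∀ i j, (Φ i j).natDegree ≤ f) (hlead : (Matrix.of fun i j => (Φ i j).coeff f).det ≠ 0)
    (hΨ : Φ * Ψ = δ • (1 : Matrix (Fin r) (Fin r) k[X]))
    (hκ : ∀ P : k[X], Irreducible P → ¬ P ^ (κ + 1) ∣ δ)
    (c : Fin r → k[X]) (hcγ : ∀ i, (c i).natDegree ≤ γ) (hc : ∃ i, (c i).coeff γ ≠ 0)
    (G : k[X]) (hG0 : G ≠ 0) (hprim : ∀ P : k[X], Irreducible P → P ∣ G → ∃ i, ¬ P ∣ c i)
    (hroom : q * γ + f ≤ V)
    (W : Finset (Fin r → k[X])) (hW : ∀ w ∈ W, (∀ b, w b ∈ PF k V) ∧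
      ∃ n : k[X], n ≠ 0 ∧ n.natDegree ≤ z ∧ ∑ i, expand k q (c i) * mv Φ w i = expand k q G * n) :
    W.card * Q ^ (q * γ + f) ≤ Q ^ (V * (r - 1) + (z + 1) + κ * G.natDegree) := by
  classical
  have hQ0 : 0 < Q := by rw [← hQk]; exact Fintype.card_pos
  have hexp' : ∀ g : k[X], expand k q g = (g.map τ) ^ q := by
    intro g
    rw [← hexp, map_map_id hστ]
  rcases W.eq_empty_or_nonempty with h0 | ⟨w0, hw0⟩
  · rw [h0, Finset.card_empty, zero_mul]; exact Nat.zero_le _
  set L : Fin r → k[X] := fun j => ∑ i, expand k q (c i) * Φ i j with hL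
  obtain ⟨j0, hj0, hj0d⟩ := top_coeff hq0 Φ hf hlead c hcγ hc
  obtain ⟨η, L', a, hη, hL', ha⟩ := exists_gcd L ⟨j0, hj0⟩
  have hE0 : expand k q G ≠ 0 := by
    rw [Ne, expand_eq_zero hq0]; exact hG0
  obtain ⟨g, M, b, hg0, hM, hb⟩ := exists_gcd (![η, expand k q G]) ⟨0, hη⟩
  have hM0 : η = g * M 0 := hM 0
  have hM1 : expand k q G = g * M 1 := hM 1
  have hcop : IsCoprime (M 0) (M 1) := ⟨b 0, b 1, by rw [← hb, Fin.sum_univ_two]⟩
  have hη'0 : M 0 ≠ 0 := by
    intro h; apply hη; rw [hM0, h, mul_zero]
  -- the degree of g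
  have hgd : g.natDegree ≤ κ * G.natDegree := by
    have h1 : g ∣ (G.map τ) ^ κ := by
      apply dvd_pow_of (q := q) hg0
      · rw [← hexp']; exact ⟨_, hM1⟩
      · intro P hP hPG hPg
        have hPG' : P.map σ ∣ G := by
          have h1 := Polynomial.map_dvd σ hPG
          rwa [map_map_id hστ] at h1
        obtain ⟨i, hi⟩ := hprim (P.map σ) (irred_map hστ hτσ hP) hPG'
        apply hκ P hP
        have h2 : δ * expand k q (c i) = ∑ j, L j * Ψ j i := by
          have h3 : ∑ j, L j * Ψ j i = ∑ a, expand k q (c a) * (Φ * Ψ) a i := by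
            simp only [hL, Matrix.mul_apply, Finset.sum_mul, Finset.mul_sum]
            rw [Finset.sum_comm]
            apply Finset.sum_congr rfl
            intro a _
            apply Finset.sum_congr rfl
            intro j _
            ring
          rw [h3, hΨ, Finset.sum_eq_single i]
          · rw [Matrix.smul_apply, Matrix.one_apply_eq, smul_eq_mul, mul_one, mul_comm]
          · intro a _ hai
            rw [Matrix.smul_apply, Matrix.one_apply_ne hai, smul_zero, mul_zero]
          · intro h; exact absurd (Finset.mem_univ _) h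
        have h4 : P ^ (κ + 1) ∣ δ * expand k q (c i) := by
          rw [h2]
          apply Finset.dvd_sum
          intro j _
          apply Dvd.dvd.mul_right
          rw [hL' j, hM0]
          exact (hPg.mul_right _).mul_right _
        rw [hexp'] at h4
        apply hP.prime.pow_dvd_of_dvd_mul_right (κ + 1) _ h4
        intro h5
        apply hi
        have h6 := Polynomial.map_dvd σ (hP.prime.dvd_of_dvd_pow h5)
        rwa [map_map_id hστ] at h6
    have h2 := natDegree_le_of_dvd h1 (pow_ne_zero κ
      ((Polynomial.map_ne_zero_iff τ.injective).2 hG0))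
    rwa [natDegree_pow, Polynomial.natDegree_map_eq_of_injective τ.injective] at h2
  -- the reduced relation
  have hred : ∀ w ∈ W, ∃ n' : k[X], n' ≠ 0 ∧ (M 0).natDegree + n'.natDegree ≤ z ∧
      ∑ j, L' j * w j = M 1 * n' := by
    intro w hw
    obtain ⟨_, n, hn0, hnz, hn⟩ := hW w hw
    rw [swap_sum] at hn
    have h1 : M 0 * (∑ j, L' j * w j) = M 1 * n := by
      apply mul_left_cancel₀ hg0
      rw [← mul_assoc, ← mul_assoc, ← hM0, ← hM1, ← hn, Finset.mul_sum]
      apply Finset.sum_congr rfl
      intro j _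
      rw [← mul_assoc, ← hL' j]
    have h2 : M 0 ∣ n := by
      apply hcop.dvd_of_dvd_mul_left
      exact ⟨_, h1.symm⟩
    obtain ⟨n', hn'⟩ := h2
    have hn'0 : n' ≠ 0 := by
      intro h; apply hn0; rw [hn', h, mul_zero]
    refine ⟨n', hn'0, ?_, ?_⟩
    · rw [hn', natDegree_mul hη'0 hn'0] at hnz
      exact hnz
    · apply mul_left_cancel₀ hη'0
      rw [h1, hn']
      ring
  choose! n' hn'0 hn'd hn' using hred
  have hη'z : (M 0).natDegree ≤ z := by
    have := hn'd w0 hw0
    omega
  have hL0 : L' j0 ≠ 0 := by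
    intro h; apply hj0
    have := hL' j0
    rw [h, mul_zero] at this
    exact this
  have hdeg1 : η.natDegree + (L' j0).natDegree = q * γ + f := by
    rw [← hj0d, ← natDegree_mul hη hL0]
    exact congrArg natDegree (hL' j0).symm
  have hdeg2 : η.natDegree = g.natDegree + (M 0).natDegree := by
    rw [hM0, natDegree_mul hg0 hη'0]
  -- the injection
  have hinj : (W ×ˢ PF k (L' j0).natDegree).card ≤
      ((PF k (z + 1 - (M 0).natDegree)) ×ˢ (Fintype.piFinset (fun j : Fin r =>
        if j = j0 then PF k 0 else PF k V))).card := by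
    apply Finset.card_le_card_of_injOn
      (fun x => (n' x.1, fun j => if j = j0 then 0 else x.1 j + (x.2 * a j) % L' j0))
    · intro x hx
      rw [Finset.mem_coe, Finset.mem_product] at hx
      rw [Finset.mem_coe, Finset.mem_product, Fintype.mem_piFinset]
      refine ⟨?_, ?_⟩
      · apply mem_PF_of_natDegree
        intro _
        have := hn'd x.1 hx.1
        show (n' x.1).natDegree < _
        omega
      · intro j
        show (if j = j0 then 0 else x.1 j + (x.2 * a j) % L' j0) ∈ _
        split_ifs with hj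
        · exact zero_mem_PF 0
        · apply add_mem_PF ((hW x.1 hx.1).1 j)
          apply PF_mono _ (mod_mem_PF hL0)
          omega
    · intro x hx y hy hxy
      rw [Finset.mem_coe, Finset.mem_product] at hx hy
      simp only [Prod.mk.injEq] at hxy
      obtain ⟨hxy1, hxy2⟩ := hxy
      have hcomp : ∀ j, j ≠ j0 → x.1 j + (x.2 * a j) % L' j0 = y.1 j + (y.2 * a j) % L' j0 := by
        intro j hj
        have := congrFun hxy2 j
        simp only [if_neg hj] at this
        exact this
      have hsumeq : ∑ j, L' j * x.1 j = ∑ j, L' j * y.1 j := by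
        rw [hn' x.1 hx.1, hn' y.1 hy.1, hxy1]
      -- congruence
      have hdvd : L' j0 ∣ x.2 - y.2 := by
        have h1 : (x.2 - y.2) * ∑ j, a j * L' j = x.2 - y.2 := by rw [ha, mul_one]
        rw [← h1, ← Finset.add_sum_erase Finset.univ (fun j => a j * L' j) (Finset.mem_univ j0)]
        have h2 : ∑ j ∈ Finset.univ.erase j0, L' j * x.1 j =
            ∑ j ∈ Finset.univ.erase j0, L' j * y.1 j + L' j0 * (y.1 j0 - x.1 j0) := by
          have h3 := Finset.add_sum_erase Finset.univ (fun j => L' j * x.1 j) (Finset.mem_univ j0)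
          have h4 := Finset.add_sum_erase Finset.univ (fun j => L' j * y.1 j) (Finset.mem_univ j0)
          linear_combination h3 - h4 + hsumeq
        have h5 : (x.2 - y.2) * ∑ j ∈ Finset.univ.erase j0, a j * L' j =
            L' j0 * (x.1 j0 - y.1 j0) + L' j0 * ∑ j ∈ Finset.univ.erase j0,
              L' j * ((x.2 * a j) / L' j0 - (y.2 * a j) / L' j0) := by
          have h6 : ∑ j ∈ Finset.univ.erase j0, L' j * (y.1 j - x.1 j) =
              L' j0 * (x.1 j0 - y.1 j0) := by
            have : ∑ j ∈ Finset.univ.erase j0, L' j * (y.1 j - x.1 j) =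
                ∑ j ∈ Finset.univ.erase j0, L' j * y.1 j -
                ∑ j ∈ Finset.univ.erase j0, L' j * x.1 j := by
              rw [← Finset.sum_sub_distrib]
              apply Finset.sum_congr rfl
              intro j _
              ring
            rw [this, h2]
            ring
          rw [← h6, Finset.mul_sum, Finset.mul_sum, ← Finset.sum_add_distrib]
          apply Finset.sum_congr rfl
          intro j hj
          have h7 := hcomp j (Finset.ne_of_mem_erase hj)
          have h8 := EuclideanDomain.div_add_mod (x.2 * a j) (L' j0)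
          have h9 := EuclideanDomain.div_add_mod (y.2 * a j) (L' j0)
          linear_combination (-L' j) * h8 + L' j * h9 + L' j * h7
        rw [mul_add, h5]
        apply dvd_add
        · exact ⟨(x.2 - y.2) * a j0, by ring⟩
        · exact dvd_add (dvd_mul_right _ _) (dvd_mul_right _ _)
      have h2 : x.2 = y.2 := by
        by_contra hne
        have hne' : x.2 - y.2 ≠ 0 := sub_ne_zero.2 hne
        have h3 := natDegree_le_of_dvd hdvd hne'
        have h4 := natDegree_lt_of_mem_PF (sub_mem_PF hx.2 hy.2) hne'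
        omega
      have h3 : ∀ j, j ≠ j0 → x.1 j = y.1 j := by
        intro j hj
        have := hcomp j hj
        rw [h2] at this
        exact add_right_cancel this
      have h4 : x.1 j0 = y.1 j0 := by
        rw [← Finset.add_sum_erase Finset.univ (fun j => L' j * x.1 j) (Finset.mem_univ j0),
          ← Finset.add_sum_erase Finset.univ (fun j => L' j * y.1 j) (Finset.mem_univ j0)] at hsumeq
        have h5 : ∑ j ∈ Finset.univ.erase j0, L' j * x.1 j =
            ∑ j ∈ Finset.univ.erase j0, L' j * y.1 j := by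
          apply Finset.sum_congr rfl
          intro j hj
          rw [h3 j (Finset.ne_of_mem_erase hj)]
        rw [h5] at hsumeq
        exact mul_left_cancel₀ hL0 (add_right_cancel hsumeq)
      apply Prod.ext _ h2
      ext1 j
      by_cases hj : j = j0
      · rw [hj]; exact h4
      · exact h3 j hj
  rw [Finset.card_product, Finset.card_product, Fintype.card_piFinset, card_PF, card_PF, hQk,
    ← Finset.prod_erase_mul Finset.univ _ (Finset.mem_univ j0), if_pos rfl, card_PF, hQk, pow_zero,
    mul_one, Finset.prod_congr rfl (g := fun _ => Q ^ V), Finset.prod_const,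
    Finset.card_erase_of_mem (Finset.mem_univ _), Finset.card_univ, Fintype.card_fin, ← pow_mul,
    ← pow_add] at hinj
  · calc W.card * Q ^ (q * γ + f) = (W.card * Q ^ (L' j0).natDegree) * Q ^ η.natDegree := by
          rw [← hdeg1, pow_add]; ring
      _ ≤ Q ^ (z + 1 - (M 0).natDegree + V * (r - 1)) * Q ^ η.natDegree :=
          Nat.mul_le_mul_right _ hinj
      _ ≤ Q ^ (V * (r - 1) + (z + 1) + κ * G.natDegree) := by
          rw [← pow_add]
          apply Nat.pow_le_pow_right hQ0
          omega
  · intro j hj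
    rw [if_neg (Finset.ne_of_mem_erase hj), card_PF, hQk]

end Pool.Agent.Y515.CntE
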